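import Mathlib

/-! Project EC: no rate in the entropic central limit theorem under a fourth moment bound.
Definitions and statements of the lemma jobs. -/

set_option autoImplicit false
set_option linter.unusedVariables false

open MeasureTheory ProbabilityTheory InformationTheory
open scoped ENNReal NNReal

namespace Pool.Agent.Q42.EC

/-- The law of `(X_1 + ... + X_n) / √n` for independent `X_i` with law `μ`. -/
noncomputable def sumLaw (μ : Measure ℝ) (n : ℕ) : Measure ℝ :=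
  (Measure.pi (fun _ : Fin n => μ)).map (fun x => (∑ i, x i) / Real.sqrt n)

/-- `f` is a smooth positive density of `ν`. -/
def IsSmoothDensity (ν : Measure ℝ) (f : ℝ → ℝ) : Prop :=
  ContDiff ℝ (⊤ : ℕ∞) f ∧ (∀ x, 0 < f x) ∧ ν = volume.withDensity (fun x => ENNReal.ofReal (f x))

/-- The relative Fisher information `J(f‖φ) = ∫ f (f' / f + x) ^ 2`. -/
noncomputable def relFisher (f : ℝ → ℝ) : ℝ≥0∞ :=
  ∫⁻ x, ENNReal.ofReal (f x * (deriv f x / f x + x) ^ 2)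

/-- The relative entropy `D(ν‖φ)`. -/
noncomputable def relEnt (ν : Measure ℝ) : ℝ≥0∞ := klDiv ν (gaussianReal 0 1)

/-- The density of a finite mixture of Gaussians with common variance. -/
noncomputable def mixPDF {I : Type} [Fintype I] (p m : I → ℝ) (v : ℝ≥0) (x : ℝ) : ℝ :=
  ∑ i, p i * gaussianPDFReal (m i) v x

/-- Finite mixture of Gaussians with common variance. -/
noncomputable def mixM {I : Type} [Fintype I] (p m : I → ℝ) (v : ℝ≥0) : Measure ℝ :=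
  ∑ i, ENNReal.ofReal (p i) • gaussianReal (m i) v

/-- The weight of the far bumps. -/
noncomputable def dl (R : ℝ) : ℝ := 1 / (2 * R ^ 4)

/-- The weights of the example. -/
noncomputable def p3 (R : ℝ) : Fin 3 → ℝ := ![dl R, 1 - 2 * dl R, dl R]

/-- The means of the example. -/
noncomputable def m3 (R : ℝ) : Fin 3 → ℝ := ![-R, 0, R]

/-- The variance of the Gaussian part of the example. -/
noncomputable def vr (R : ℝ) : ℝ≥0 := (1 - 1 / R ^ 2).toNNReal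

/-- The example. -/
noncomputable def muR (R : ℝ) : Measure ℝ := mixM (p3 R) (m3 R) (vr R)

/-- Weights of the sum. -/
noncomputable def pw {I : Type} (p : I → ℝ) (n : ℕ) (w : Fin n → I) : ℝ := ∏ i, p (w i)

/-- Means of the sum. -/
noncomputable def mw {I : Type} (m : I → ℝ) (n : ℕ) (w : Fin n → I) : ℝ := (∑ i, m (w i)) / Real.sqrt n

def St_density : Prop :=
  ∀ {I : Type} [Fintype I] (p m : I → ℝ) (v : ℝ≥0) (hv : v ≠ 0) (hp : ∀ i, 0 ≤ p i) (hp1 : ∑ i, p i = 1),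
    IsSmoothDensity (mixM p m v) (mixPDF p m v)

def St_sum : Prop :=
  ∀ {I : Type} [Fintype I] [DecidableEq I] (p m : I → ℝ) (v : ℝ≥0) (hp : ∀ i, 0 ≤ p i)
    (hp1 : ∑ i, p i = 1) (n : ℕ) (hn : 1 ≤ n),
    sumLaw (mixM p m v) n = mixM (pw p n) (mw m n) v

def St_mom : Prop :=
  ∀ R : ℝ, 2 ≤ R → IsProbabilityMeasure (muR R) ∧ Integrable (fun x => x ^ 4) (muR R) ∧
    ∫ x, x ∂(muR R) = 0 ∧ ∫ x, x ^ 2 ∂(muR R) = 1 ∧ ∫ x, x ^ 4 ∂(muR R) ≤ 10

def St_Jle : Prop :=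
  ∀ {I : Type} [Fintype I] (p m : I → ℝ) (v : ℝ≥0) (hv : v ≠ 0) (hp : ∀ i, 0 ≤ p i) (hp1 : ∑ i, p i = 1),
    relFisher (mixPDF p m v) ≤ ENNReal.ofReal (∑ i, p i * m i ^ 2 + (1 - (v : ℝ)) ^ 2 / v)

def St_Dle : Prop :=
  ∀ {I : Type} [Fintype I] (p m : I → ℝ) (v : ℝ≥0) (hv : v ≠ 0) (hp : ∀ i, 0 ≤ p i) (hp1 : ∑ i, p i = 1),
    relEnt (mixM p m v)
      ≤ ENNReal.ofReal ((∑ i, p i * m i ^ 2) / 2 + ((v : ℝ) - 1 - Real.log v) / 2)

def St_Jge : Prop :=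
  ∀ {I : Type} [Fintype I] (p m : I → ℝ) (v : ℝ≥0) (hv : v ≠ 0) (hp : ∀ i, 0 ≤ p i) (hp1 : ∑ i, p i = 1)
    (b : ℝ) (hb : mixPDF p m v b ≤ b * (mixM p m v).real (Set.Ioi b)),
    ENNReal.ofReal ((b * (mixM p m v).real (Set.Ioi b) - mixPDF p m v b) ^ 2
      / (mixM p m v).real (Set.Ioi b)) ≤ relFisher (mixPDF p m v)

def St_Dge : Prop :=
  ∀ (ν γ : Measure ℝ) [IsProbabilityMeasure ν] [IsProbabilityMeasure γ] (A : Set ℝ) (hA : MeasurableSet A)
    (l : ℝ), ENNReal.ofReal (l * ν.real A - (Real.exp l - 1) * γ.real A) ≤ klDiv ν γ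

def St_tail : Prop :=
  ∀ (R : ℝ) (n : ℕ), 2 ≤ R → 1 ≤ n → (n : ℝ) ≤ R ^ 4 / 2 →
    n * dl R / 4 ≤ (mixM (pw (p3 R) n) (mw (m3 R) n) (vr R)).real (Set.Ioi (R / (2 * Real.sqrt n))) ∧
    (mixM (pw (p3 R) n) (mw (m3 R) n) (vr R)).real (Set.Ioi (R / (2 * Real.sqrt n)))
      ≤ 2 * n * dl R + Real.exp (-((R / (2 * Real.sqrt n)) ^ 2 / 2)) ∧
    mixPDF (pw (p3 R) n) (mw (m3 R) n) (vr R) (R / (2 * Real.sqrt n))
      ≤ 2 * n * dl R + Real.exp (-((R / (2 * Real.sqrt n)) ^ 2 / 2)) ∧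
    (gaussianReal 0 1).real (Set.Ioi (R / (2 * Real.sqrt n)))
      ≤ Real.exp (-((R / (2 * Real.sqrt n)) ^ 2 / 2))

end Pool.Agent.Q42.EC
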