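import Mathlib
import Pool.Agent.Q42.EC.Stm

set_option autoImplicit false
set_option linter.unusedVariables false

open MeasureTheory ProbabilityTheory InformationTheory
open scoped ENNReal NNReal

namespace Pool.Agent.Q42.EC

/-- Change of the reference measure from Lebesgue to the standard Gaussian. -/
theorem wd_gauss (h : ℝ → ℝ) (hm : Measurable h) :
    (volume : Measure ℝ).withDensity (fun x => ENNReal.ofReal (h x))
      = (gaussianReal 0 1).withDensity
          (fun x => ENNReal.ofReal (h x / gaussianPDFReal 0 1 x)) := by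
  rw [gaussianReal_of_var_ne_zero 0 one_ne_zero]
  have hmg : Measurable (fun x => ENNReal.ofReal (h x / gaussianPDFReal 0 1 x)) := by
    have := measurable_gaussianPDFReal 0 1
    fun_prop
  rw [← withDensity_mul _ (measurable_gaussianPDF 0 1) hmg]
  congr 1
  funext x
  simp only [Pi.mul_apply, gaussianPDF]
  rw [← ENNReal.ofReal_mul (gaussianPDFReal_nonneg _ _ _)]
  congr 1
  have := (gaussianPDFReal_pos 0 1 x one_ne_zero).ne'
  field_simp

theorem gaussianReal_wd (m : ℝ) (v : ℝ≥0) (hv : v ≠ 0) :
    gaussianReal m v = (gaussianReal 0 1).withDensity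
      (fun x => ENNReal.ofReal (gaussianPDFReal m v x / gaussianPDFReal 0 1 x)) := by
  rw [← wd_gauss _ (measurable_gaussianPDFReal m v), gaussianReal_of_var_ne_zero m hv]
  rfl

theorem mixM_wd {I : Type} [Fintype I] (p m : I → ℝ) (v : ℝ≥0) (hv : v ≠ 0)
    (hp : ∀ i, 0 ≤ p i) :
    mixM p m v = (gaussianReal 0 1).withDensity
      (fun x => ENNReal.ofReal (mixPDF p m v x / gaussianPDFReal 0 1 x)) := by
  have hmeas : ∀ i, Measurable (fun x => p i * gaussianPDFReal (m i) v x) := by
    intro i
    have := measurable_gaussianPDFReal (m i) v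
    fun_prop
  have hmm : Measurable (mixPDF p m v) := by
    unfold mixPDF
    exact Finset.measurable_fun_sum _ (fun i _ => hmeas i)
  rw [← wd_gauss _ hmm]
  unfold mixM mixPDF
  have h1 : (fun x => ENNReal.ofReal (∑ i, p i * gaussianPDFReal (m i) v x))
      = ∑ i, fun x => ENNReal.ofReal (p i) * gaussianPDF (m i) v x := by
    funext x
    rw [ENNReal.ofReal_sum_of_nonneg
      (fun i _ => mul_nonneg (hp i) (gaussianPDFReal_nonneg _ _ _)), Finset.sum_apply]
    refine Finset.sum_congr rfl fun i _ => ?_
    rw [ENNReal.ofReal_mul (hp i)]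
    rfl
  rw [h1]
  have h2 : ∀ s : Finset I,
      (volume : Measure ℝ).withDensity (∑ i ∈ s, fun x => ENNReal.ofReal (p i) * gaussianPDF (m i) v x)
        = ∑ i ∈ s, ENNReal.ofReal (p i) • gaussianReal (m i) v := by
    classical
    intro s
    induction s using Finset.induction_on with
    | empty => simp
    | insert a s ha ih =>
      rw [Finset.sum_insert ha, Finset.sum_insert ha, ← ih]
      have hma : Measurable (fun x => ENNReal.ofReal (p a) * gaussianPDF (m a) v x) :=
        (measurable_gaussianPDF (m a) v).const_mul _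
      rw [withDensity_add_left hma]
      congr 1
      have : (fun x => ENNReal.ofReal (p a) * gaussianPDF (m a) v x)
          = ENNReal.ofReal (p a) • gaussianPDF (m a) v := by
        funext x; rfl
      rw [this, withDensity_smul _ (measurable_gaussianPDF (m a) v),
        gaussianReal_of_var_ne_zero (m a) hv]
  exact (h2 Finset.univ).symm

/-- The relative entropy of a measure with a density with respect to `γ`. -/
theorem klDiv_wd (h : ℝ → ℝ) (hm : Measurable h) (hh : ∀ x, 0 ≤ h x)
    (hf : IsFiniteMeasure ((gaussianReal 0 1).withDensity (fun x => ENNReal.ofReal (h x)))) :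
    klDiv ((gaussianReal 0 1).withDensity (fun x => ENNReal.ofReal (h x))) (gaussianReal 0 1)
      = ∫⁻ x, ENNReal.ofReal (klFun (h x)) ∂(gaussianReal 0 1) := by
  rw [klDiv_eq_lintegral_klFun_of_ac (withDensity_absolutelyContinuous _ _)]
  apply lintegral_congr_ae
  have hm' : Measurable (fun x => ENNReal.ofReal (h x)) := by fun_prop
  filter_upwards [Measure.rnDeriv_withDensity (gaussianReal 0 1) hm'] with x hx
  rw [hx, ENNReal.toReal_ofReal (hh x)]

theorem log_ratio (m : ℝ) (v : ℝ≥0) (hv : v ≠ 0) (x : ℝ) :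
    Real.log (gaussianPDFReal m v x / gaussianPDFReal 0 1 x)
      = x ^ 2 / 2 - (x - m) ^ 2 / (2 * v) - Real.log v / 2 := by
  have hv0 : (0 : ℝ) < v := by positivity
  rw [Real.log_div (gaussianPDFReal_pos m v x hv).ne' (gaussianPDFReal_pos 0 1 x one_ne_zero).ne']
  have h1 : ∀ (m' : ℝ) (v' : ℝ≥0), v' ≠ 0 → Real.log (gaussianPDFReal m' v' x)
      = - (Real.log (2 * Real.pi) / 2 + Real.log v' / 2) - (x - m') ^ 2 / (2 * v') := by
    intro m' v' hv'
    have hv0' : (0 : ℝ) < v' := by positivity
    rw [gaussianPDFReal]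
    rw [Real.log_mul (by positivity) (Real.exp_pos _).ne', Real.log_exp, Real.log_inv,
      Real.log_sqrt (by positivity), Real.log_mul (by positivity) hv0'.ne']
    ring
  rw [h1 m v hv, h1 0 1 one_ne_zero]
  simp only [NNReal.coe_one, Real.log_one]
  ring

theorem integrable_sq_gauss (m a : ℝ) (v : ℝ≥0) :
    Integrable (fun x => (x - a) ^ 2) (gaussianReal m v) := by
  have h := (memLp_id_gaussianReal (μ := m) (v := v) 2).sub (memLp_const (p := ((2 : ℝ≥0) : ℝ≥0∞)) a)
  have h2 := h.integrable_sq
  simpa using h2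

theorem integral_sq_gauss (m a : ℝ) (v : ℝ≥0) :
    ∫ x, (x - a) ^ 2 ∂(gaussianReal m v) = v + (m - a) ^ 2 := by
  have h1 : Var[fun x => x; gaussianReal m v] = v := variance_fun_id_gaussianReal
  rw [variance_eq_integral measurable_id'.aemeasurable] at h1
  simp only [integral_id_gaussianReal] at h1
  have hi : Integrable (fun x : ℝ => x) (gaussianReal m v) :=
    (memLp_id_gaussianReal (μ := m) (v := v) 1).integrable (by norm_num)
  have h2 : (fun x : ℝ => (x - a) ^ 2)
      = fun x => (x - m) ^ 2 + (2 * (m - a) * x + ((m - a) ^ 2 - 2 * (m - a) * m)) := by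
    funext x; ring
  have hi3 : Integrable (fun x : ℝ => 2 * (m - a) * x) (gaussianReal m v) := hi.const_mul _
  have hi4 : Integrable (fun x : ℝ => 2 * (m - a) * x + ((m - a) ^ 2 - 2 * (m - a) * m))
      (gaussianReal m v) := hi3.add (integrable_const _)
  rw [h2, integral_add (integrable_sq_gauss m m v) hi4, h1,
    integral_add hi3 (integrable_const _), integral_const_mul,
    integral_id_gaussianReal]
  simp

theorem kl_gauss (m : ℝ) (v : ℝ≥0) (hv : v ≠ 0) :
    klDiv (gaussianReal m v) (gaussianReal 0 1)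
      = ENNReal.ofReal (((v : ℝ) + m ^ 2 - 1 - Real.log v) / 2) := by
  have hv0 : (0 : ℝ) < v := by positivity
  have hac : gaussianReal m v ≪ gaussianReal 0 1 :=
    (gaussianReal_absolutelyContinuous m hv).trans
      (gaussianReal_absolutelyContinuous' 0 one_ne_zero)
  have hg : Measurable (fun x => gaussianPDFReal m v x / gaussianPDFReal 0 1 x) := by
    have := measurable_gaussianPDFReal m v
    have := measurable_gaussianPDFReal 0 1
    fun_prop
  have hg' : Measurable
      (fun x => ENNReal.ofReal (gaussianPDFReal m v x / gaussianPDFReal 0 1 x)) := by fun_prop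
  have hrn : llr (gaussianReal m v) (gaussianReal 0 1) =ᵐ[gaussianReal m v]
      fun x => x ^ 2 / 2 - (x - m) ^ 2 / (2 * v) - Real.log v / 2 := by
    apply hac.ae_eq
    have h1 := Measure.rnDeriv_withDensity (gaussianReal 0 1) hg'
    rw [← gaussianReal_wd m v hv] at h1
    filter_upwards [h1] with x hx
    rw [llr, hx, ENNReal.toReal_ofReal
      (div_nonneg (gaussianPDFReal_nonneg _ _ _) (gaussianPDFReal_nonneg _ _ _)),
      log_ratio m v hv]
  have hi1 : Integrable (fun x : ℝ => x ^ 2 / 2) (gaussianReal m v) := by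
    have := (integrable_sq_gauss m 0 v).div_const 2
    simpa using this
  have hi2 : Integrable (fun x : ℝ => (x - m) ^ 2 / (2 * v)) (gaussianReal m v) :=
    (integrable_sq_gauss m m v).div_const _
  have hint : Integrable (fun x : ℝ => x ^ 2 / 2 - (x - m) ^ 2 / (2 * v) - Real.log v / 2)
      (gaussianReal m v) := (hi1.sub hi2).sub (integrable_const _)
  rw [klDiv_of_ac_of_integrable hac (hint.congr hrn.symm)]
  rw [integral_congr_ae hrn]
  have hi3 : Integrable (fun x : ℝ => x ^ 2 / 2 - (x - m) ^ 2 / (2 * v)) (gaussianReal m v) :=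
    hi1.sub hi2
  rw [integral_sub hi3 (integrable_const _), integral_sub hi1 hi2,
    integral_div, integral_div]
  have e1 := integral_sq_gauss m 0 v
  have e2 := integral_sq_gauss m m v
  simp only [sub_zero] at e1
  rw [e1, e2]
  simp
  congr 1
  field_simp

theorem Dle : St_Dle := by
  intro I _ p m v hv hp hp1
  have hv0 : (0 : ℝ) < v := by positivity
  have hfin : ∀ {J : Type} [Fintype J] (p m : J → ℝ) (v : ℝ≥0),
      IsFiniteMeasure (mixM p m v) := by
    intro J _ p m v
    constructor
    unfold mixM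
    rw [Measure.coe_finsetSum, Finset.sum_apply]
    apply ENNReal.sum_lt_top.2
    intro i _
    rw [Measure.smul_apply, smul_eq_mul]
    exact ENNReal.mul_lt_top ENNReal.ofReal_lt_top (measure_lt_top _ _)
  have hgm : ∀ i, Measurable (fun x => gaussianPDFReal (m i) v x / gaussianPDFReal 0 1 x) := by
    intro i
    have := measurable_gaussianPDFReal (m i) v
    have := measurable_gaussianPDFReal 0 1
    fun_prop
  have hg0 : ∀ i x, 0 ≤ gaussianPDFReal (m i) v x / gaussianPDFReal 0 1 x := fun i x =>
    div_nonneg (gaussianPDFReal_nonneg _ _ _) (gaussianPDFReal_nonneg _ _ _)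
  have hmix : ∀ x, mixPDF p m v x / gaussianPDFReal 0 1 x
      = ∑ i, p i • (gaussianPDFReal (m i) v x / gaussianPDFReal 0 1 x) := by
    intro x
    unfold mixPDF
    rw [Finset.sum_div]
    refine Finset.sum_congr rfl fun i _ => ?_
    rw [smul_eq_mul]; ring
  have hmm : Measurable (fun x => mixPDF p m v x / gaussianPDFReal 0 1 x) := by
    simp_rw [hmix]
    exact Finset.measurable_fun_sum _ (fun i _ => (hgm i).const_smul (p i))
  have hmix0 : ∀ x, 0 ≤ mixPDF p m v x / gaussianPDFReal 0 1 x := by
    intro x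
    rw [hmix]
    exact Finset.sum_nonneg fun i _ => mul_nonneg (hp i) (hg0 i x)
  have hF := hfin p m v
  unfold relEnt
  rw [mixM_wd p m v hv hp] at hF ⊢
  rw [klDiv_wd _ hmm hmix0 hF]
  have hstep : ∀ x, ENNReal.ofReal (klFun (mixPDF p m v x / gaussianPDFReal 0 1 x))
      ≤ ∑ i, ENNReal.ofReal (p i)
          * ENNReal.ofReal (klFun (gaussianPDFReal (m i) v x / gaussianPDFReal 0 1 x)) := by
    intro x
    rw [hmix]
    have hc := convexOn_klFun.map_sum_le (t := Finset.univ) (w := p)
      (p := fun i => gaussianPDFReal (m i) v x / gaussianPDFReal 0 1 x)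
      (fun i _ => hp i) hp1 (fun i _ => hg0 i x)
    refine (ENNReal.ofReal_le_ofReal hc).trans ?_
    simp only [smul_eq_mul]
    rw [ENNReal.ofReal_sum_of_nonneg
      (fun i _ => mul_nonneg (hp i) (klFun_nonneg (hg0 i x)))]
    refine Finset.sum_le_sum fun i _ => ?_
    rw [ENNReal.ofReal_mul (hp i)]
  refine (lintegral_mono hstep).trans ?_
  have hkm : ∀ i, Measurable (fun x => ENNReal.ofReal
      (klFun (gaussianPDFReal (m i) v x / gaussianPDFReal 0 1 x))) := by
    intro i
    exact (measurable_klFun.comp (hgm i)).ennreal_ofReal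
  rw [lintegral_finsetSum _ (fun i _ => (hkm i).const_mul _)]
  have hlog : 0 ≤ (v : ℝ) - 1 - Real.log v := by
    have := Real.log_le_sub_one_of_pos hv0
    linarith
  have hterm : ∀ i, ∫⁻ x, ENNReal.ofReal (p i)
      * ENNReal.ofReal (klFun (gaussianPDFReal (m i) v x / gaussianPDFReal 0 1 x))
        ∂(gaussianReal 0 1)
      = ENNReal.ofReal (p i * (((v : ℝ) + m i ^ 2 - 1 - Real.log v) / 2)) := by
    intro i
    rw [lintegral_const_mul _ (hkm i)]
    have hfi : IsFiniteMeasure ((gaussianReal 0 1).withDensity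
        (fun x => ENNReal.ofReal (gaussianPDFReal (m i) v x / gaussianPDFReal 0 1 x))) := by
      rw [← gaussianReal_wd (m i) v hv]; infer_instance
    rw [← klDiv_wd _ (hgm i) (hg0 i) hfi, ← gaussianReal_wd (m i) v hv, kl_gauss (m i) v hv,
      ← ENNReal.ofReal_mul (hp i)]
  rw [Finset.sum_congr rfl (fun i _ => hterm i)]
  rw [← ENNReal.ofReal_sum_of_nonneg]
  · apply ENNReal.ofReal_le_ofReal
    apply le_of_eq
    have : ∀ i, p i * (((v : ℝ) + m i ^ 2 - 1 - Real.log v) / 2)
        = p i * m i ^ 2 / 2 + p i * (((v : ℝ) - 1 - Real.log v) / 2) := by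
      intro i; ring
    simp_rw [this]
    rw [Finset.sum_add_distrib, ← Finset.sum_mul, hp1, ← Finset.sum_div]
    ring
  · intro i _
    apply mul_nonneg (hp i)
    have := sq_nonneg (m i)
    linarith

end Pool.Agent.Q42.EC
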