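import Pool.Agent.Q42.EC.Stm

/-! Project EC: assembly. -/

set_option autoImplicit false

open MeasureTheory ProbabilityTheory InformationTheory Filter Topology
open scoped ENNReal NNReal

namespace Pool.Agent.Q42.EC

theorem exists_R (n : ℕ) (hn : 1 ≤ n) : ∃ R : ℝ, 2 ≤ R ∧ (n : ℝ) ≤ R ^ 4 / 2 ∧
    24 ≤ R / (2 * Real.sqrt n) ∧
    Real.exp (-((R / (2 * Real.sqrt n)) ^ 2 / 2)) ≤ n * dl R ∧
    Real.exp (-((R / (2 * Real.sqrt n)) ^ 2 / 4)) ≤ 1 / (256 * R ^ 2) := by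
  have hn0 : (0 : ℝ) < n := by exact_mod_cast hn
  have hs : 0 < Real.sqrt n := Real.sqrt_pos.2 hn0
  have hsq : Real.sqrt n ^ 2 = n := Real.sq_sqrt hn0.le
  have hb2 : ∀ R : ℝ, (R / (2 * Real.sqrt n)) ^ 2 = R ^ 2 / (4 * n) := by
    intro R
    rw [div_pow, mul_pow, hsq]; norm_num
  have t1 : Tendsto (fun R : ℝ => R ^ 2 / (8 * n)) atTop atTop :=
    (tendsto_pow_atTop (by norm_num)).atTop_div_const (by positivity)
  have t2 : Tendsto (fun R : ℝ => R ^ 2 / (16 * n)) atTop atTop :=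
    (tendsto_pow_atTop (by norm_num)).atTop_div_const (by positivity)
  have e1 := ((Real.tendsto_pow_mul_exp_neg_atTop_nhds_zero 2).comp t1).eventually
    (gt_mem_nhds (show (0 : ℝ) < 1 / (128 * n) by positivity))
  have e2 := ((Real.tendsto_pow_mul_exp_neg_atTop_nhds_zero 1).comp t2).eventually
    (gt_mem_nhds (show (0 : ℝ) < 1 / (256 * (16 * n)) by positivity))
  have e3 : ∀ᶠ R : ℝ in atTop, 2 ≤ R := eventually_ge_atTop 2
  have e4 : ∀ᶠ R : ℝ in atTop, 2 * (n : ℝ) ≤ R := eventually_ge_atTop _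
  have e5 : ∀ᶠ R : ℝ in atTop, 24 * (2 * Real.sqrt n) ≤ R := eventually_ge_atTop _
  obtain ⟨R, h1, h2, h3, h4, h5⟩ := (e1.and (e2.and (e3.and (e4.and e5)))).exists
  have hR0 : 0 < R := by linarith
  refine ⟨R, h3, ?_, ?_, ?_, ?_⟩
  · have h6 : R ≤ R ^ 4 := by nlinarith [sq_nonneg R, sq_nonneg (R ^ 2 - 1), mul_pos hR0 hR0]
    linarith
  · rw [le_div_iff₀ (by positivity)]; exact h5
  · rw [hb2]
    simp only [Function.comp] at h1
    have h7 : R ^ 2 / (4 * n) / 2 = R ^ 2 / (8 * n) := by field_simp; norm_num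
    rw [h7]
    have h8 : (R ^ 2 / (8 * n)) ^ 2 * Real.exp (-(R ^ 2 / (8 * n))) < 1 / (128 * n) := h1
    unfold dl
    rw [div_pow] at h8
    have h9 : Real.exp (-(R ^ 2 / (8 * n))) < 1 / (128 * n) * ((8 * n) ^ 2 / (R ^ 2) ^ 2) := by
      have h10 : (R ^ 2) ^ 2 / (8 * (n : ℝ)) ^ 2 * Real.exp (-(R ^ 2 / (8 * n)))
          * ((8 * n) ^ 2 / (R ^ 2) ^ 2) = Real.exp (-(R ^ 2 / (8 * n))) := by
        field_simp
      rw [← h10]
      exact mul_lt_mul_of_pos_right h8 (by positivity)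
    refine h9.le.trans (le_of_eq ?_)
    field_simp
    norm_num
  · rw [hb2]
    simp only [Function.comp] at h2
    have h7 : R ^ 2 / (4 * n) / 4 = R ^ 2 / (16 * n) := by field_simp; norm_num
    rw [h7]
    have h8 : (R ^ 2 / (16 * n)) ^ 1 * Real.exp (-(R ^ 2 / (16 * n))) < 1 / (256 * (16 * n)) := h2
    rw [pow_one] at h8
    have h9 : Real.exp (-(R ^ 2 / (16 * n))) < 1 / (256 * (16 * n)) * ((16 * n) / R ^ 2) := by
      have h10 : R ^ 2 / (16 * (n : ℝ)) * Real.exp (-(R ^ 2 / (16 * n)))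
          * ((16 * n) / R ^ 2) = Real.exp (-(R ^ 2 / (16 * n))) := by
        field_simp
      rw [← h10]
      exact mul_lt_mul_of_pos_right h8 (by positivity)
    refine h9.le.trans (le_of_eq ?_)
    field_simp

theorem p3_nonneg (R : ℝ) (hR : 2 ≤ R) (i : Fin 3) : 0 ≤ p3 R i := by
  have h16 : (16 : ℝ) ≤ R ^ 4 := by nlinarith [sq_nonneg (R ^ 2 - 4), sq_nonneg (R - 2)]
  have h1 : 0 ≤ dl R := by unfold dl; positivity
  have h2 : dl R ≤ 1 / 32 := by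
    unfold dl
    exact one_div_le_one_div_of_le (by norm_num) (by linarith)
  fin_cases i <;> simp [p3] <;> linarith

theorem p3_sum (R : ℝ) : ∑ i, p3 R i = 1 := by
  simp [p3, Fin.sum_univ_three]; ring

theorem pw_nonneg {I : Type} (p : I → ℝ) (hp : ∀ i, 0 ≤ p i) (n : ℕ) (w : Fin n → I) : 0 ≤ pw p n w :=
  Finset.prod_nonneg fun _ _ => hp _

theorem pw_sum {I : Type} [Fintype I] [DecidableEq I] (p : I → ℝ) (hp : ∑ i, p i = 1) (n : ℕ) :
    ∑ w : Fin n → I, pw p n w = 1 := by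
  unfold pw
  rw [← Fintype.piFinset_univ, ← Finset.prod_univ_sum (t := fun _ => Finset.univ) (f := fun _ i => p i)]
  simp [hp]

/-- The density of the law of the normalised sum of `k` copies. -/
noncomputable def fR (R : ℝ) (k : ℕ) : ℝ → ℝ := mixPDF (pw (p3 R) k) (mw (m3 R) k) (vr R)

theorem vr_coe (R : ℝ) (hR : 2 ≤ R) : (vr R : ℝ) = 1 - 1 / R ^ 2 ∧ 3 / 4 ≤ (vr R : ℝ) ∧ vr R ≠ 0 := by
  have h4 : (4 : ℝ) ≤ R ^ 2 := by nlinarith
  have h1 : 1 / R ^ 2 ≤ 1 / 4 := one_div_le_one_div_of_le (by norm_num) h4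
  have h2 : (vr R : ℝ) = 1 - 1 / R ^ 2 := Real.coe_toNNReal _ (by linarith)
  refine ⟨h2, by rw [h2]; linarith, fun h => ?_⟩
  rw [h] at h2
  simp only [NNReal.coe_zero] at h2
  linarith

theorem second (R : ℝ) (hR : 2 ≤ R) : ∑ w : Fin 1 → Fin 3, pw (p3 R) 1 w * mw (m3 R) 1 w ^ 2 = 1 / R ^ 2 := by
  have hR0 : R ≠ 0 := by linarith
  have h : ∑ w : Fin 1 → Fin 3, pw (p3 R) 1 w * mw (m3 R) 1 w ^ 2 = ∑ i : Fin 3, p3 R i * m3 R i ^ 2 := by
    refine Fintype.sum_equiv (Equiv.funUnique (Fin 1) (Fin 3)) _ _ fun w => ?_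
    simp [pw, mw, Equiv.funUnique]
  rw [h]
  simp [Fin.sum_univ_three, p3, m3, dl]
  field_simp
  norm_num

section Main

variable (h_den : St_density) (h_sum : St_sum) (h_mom : St_mom) (h_tail : St_tail)

include h_den h_sum in
theorem dens (R : ℝ) (hR : 2 ≤ R) (k : ℕ) (hk : 1 ≤ k) : IsSmoothDensity (sumLaw (muR R) k) (fR R k) := by
  unfold muR
  rw [h_sum (p3 R) (m3 R) (vr R) (p3_nonneg R hR) (p3_sum R) k hk]
  exact h_den _ _ _ (vr_coe R hR).2.2 (pw_nonneg _ (p3_nonneg R hR) k) (pw_sum _ (p3_sum R) k)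

theorem J_one (h_Jle : St_Jle) (R : ℝ) (hR : 2 ≤ R) : relFisher (fR R 1) ≤ ENNReal.ofReal (2 / R ^ 2) := by
  refine (h_Jle _ _ _ (vr_coe R hR).2.2 (pw_nonneg _ (p3_nonneg R hR) 1)
    (pw_sum _ (p3_sum R) 1)).trans (ENNReal.ofReal_le_ofReal ?_)
  rw [second R hR]
  obtain ⟨h1, h2, -⟩ := vr_coe R hR
  have h3 : (1 - (vr R : ℝ)) = 1 / R ^ 2 := by rw [h1]; ring
  rw [h3]
  have h4 : (4 : ℝ) ≤ R ^ 2 := by nlinarith
  have h5 : (1 / R ^ 2) ^ 2 / (vr R : ℝ) ≤ 1 / R ^ 2 := by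
    rw [div_le_iff₀ (by linarith)]
    have h6 : 1 / R ^ 2 ≤ 1 / 4 := one_div_le_one_div_of_le (by norm_num) h4
    have h7 : 0 < 1 / R ^ 2 := by positivity
    nlinarith
  have h8 : 2 / R ^ 2 = 1 / R ^ 2 + 1 / R ^ 2 := by ring
  rw [h8]
  linarith

theorem D_one (h_sum : St_sum) (h_Dle : St_Dle) (R : ℝ) (hR : 2 ≤ R) :
    relEnt (sumLaw (muR R) 1) ≤ ENNReal.ofReal (1 / R ^ 2) := by
  unfold muR
  rw [h_sum (p3 R) (m3 R) (vr R) (p3_nonneg R hR) (p3_sum R) 1 le_rfl]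
  refine (h_Dle _ _ _ (vr_coe R hR).2.2 (pw_nonneg _ (p3_nonneg R hR) 1)
    (pw_sum _ (p3_sum R) 1)).trans (ENNReal.ofReal_le_ofReal ?_)
  rw [second R hR]
  obtain ⟨h1, h2, -⟩ := vr_coe R hR
  have h4 : (4 : ℝ) ≤ R ^ 2 := by nlinarith
  have h6 : 1 / R ^ 2 ≤ 1 / 4 := one_div_le_one_div_of_le (by norm_num) h4
  have h7 : 0 < 1 / R ^ 2 := by positivity
  -- `-log v ≤ 1 / v - 1`
  have h8 : Real.log (vr R : ℝ)⁻¹ ≤ (vr R : ℝ)⁻¹ - 1 := Real.log_le_sub_one_of_pos (by positivity)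
  rw [Real.log_inv] at h8
  have h9 : (vr R : ℝ)⁻¹ - 1 ≤ 4 / 3 * (1 / R ^ 2) := by
    have h10 : (vr R : ℝ)⁻¹ - 1 = (1 - (vr R : ℝ)) / vr R := by
      field_simp
    rw [h10, div_le_iff₀ (by linarith), h1]
    nlinarith
  linarith [h1]

include h_tail in
theorem key (n : ℕ) (R : ℝ) (hn : 1 ≤ n) (h1 : 2 ≤ R) (h2 : (n : ℝ) ≤ R ^ 4 / 2)
    (h4 : Real.exp (-((R / (2 * Real.sqrt n)) ^ 2 / 2)) ≤ n * dl R) :
    n * dl R / 4 ≤ (mixM (pw (p3 R) n) (mw (m3 R) n) (vr R)).real (Set.Ioi (R / (2 * Real.sqrt n))) ∧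
    (mixM (pw (p3 R) n) (mw (m3 R) n) (vr R)).real (Set.Ioi (R / (2 * Real.sqrt n))) ≤ 3 * (n * dl R) ∧
    fR R n (R / (2 * Real.sqrt n)) ≤ 3 * (n * dl R) := by
  obtain ⟨a, b, c, -⟩ := h_tail R n h1 hn h2
  refine ⟨a, by linarith, ?_⟩
  unfold fR
  linarith

end Main

theorem bsq (n : ℕ) (hn : 1 ≤ n) (R : ℝ) (hR : 2 ≤ R) :
    (R / (2 * Real.sqrt n)) ^ 2 * (n * dl R) = 1 / (8 * R ^ 2) := by
  have hn0 : (0 : ℝ) < n := by exact_mod_cast hn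
  have hsq : Real.sqrt n ^ 2 = n := Real.sq_sqrt hn0.le
  rw [div_pow, mul_pow, hsq]
  unfold dl
  field_simp
  norm_num

theorem finJ (h_den : St_density) (h_sum : St_sum) (h_mom : St_mom) (h_tail : St_tail) (h_Jle : St_Jle)
    (h_Jge : St_Jge) (C : ℝ) : ∃ (μ : Measure ℝ) (f : ℕ → ℝ → ℝ) (n : ℕ), IsProbabilityMeasure μ ∧
      Integrable (fun x => x ^ 4) μ ∧ ∫ x, x ∂μ = 0 ∧ ∫ x, x ^ 2 ∂μ = 1 ∧ ∫ x, x ^ 4 ∂μ ≤ 10 ∧
      (∀ k, 1 ≤ k → IsSmoothDensity (sumLaw μ k) (f k)) ∧ 1 ≤ n ∧ relFisher (f 1) ≠ ⊤ ∧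
      ENNReal.ofReal (C / n) * relFisher (f 1) < relFisher (f n) := by
  set n : ℕ := ⌈4000 * (|C| + 1)⌉₊ with hnd
  have hn4 : 4000 * (|C| + 1) ≤ n := Nat.le_ceil _
  have hC0 := abs_nonneg C
  have hn0 : (0 : ℝ) < n := by linarith
  have hn : 1 ≤ n := by exact_mod_cast hn0
  obtain ⟨R, h1, h2, h3, h4, h5⟩ := exists_R n hn
  obtain ⟨m1, m2, m3', m4, m5⟩ := h_mom R h1
  obtain ⟨k1, k2, k3⟩ := key h_tail n R hn h1 h2 h4
  have hJ1 := J_one h_Jle R h1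
  have hR0 : 0 < R := by linarith
  refine ⟨muR R, fR R, n, m1, m2, m3', m4, m5, fun k hk => dens h_den h_sum R h1 k hk, hn,
    ne_top_of_le_ne_top ENNReal.ofReal_ne_top hJ1, ?_⟩
  have hd : 0 < n * dl R := by unfold dl; positivity
  set b := R / (2 * Real.sqrt n) with hb
  set P := (mixM (pw (p3 R) n) (mw (Pool.Agent.Q42.EC.m3 R) n) (vr R)).real (Set.Ioi b) with hP
  have hP0 : 0 < P := by linarith
  have hf : fR R n b ≤ b * P := by
    have : b * (n * dl R / 4) ≤ b * P := mul_le_mul_of_nonneg_left k1 (by linarith)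
    nlinarith
  have hge := h_Jge (pw (p3 R) n) (mw (Pool.Agent.Q42.EC.m3 R) n) (vr R) (vr_coe R h1).2.2
    (pw_nonneg _ (p3_nonneg R h1) n) (pw_sum _ (p3_sum R) n) b hf
  have hlow : 1 / (1536 * R ^ 2) ≤ (b * P - fR R n b) ^ 2 / P := by
    rw [le_div_iff₀ hP0]
    have e1 : b * (n * dl R) / 8 ≤ b * P - fR R n b := by
      have : b * (n * dl R / 4) ≤ b * P := mul_le_mul_of_nonneg_left k1 (by linarith)
      nlinarith
    have e2 : 0 ≤ b * (n * dl R) / 8 := by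
      have : 0 ≤ b := by linarith
      positivity
    have e3 : (b * (n * dl R) / 8) ^ 2 ≤ (b * P - fR R n b) ^ 2 := pow_le_pow_left₀ e2 e1 2
    have e4 := bsq n hn R h1
    have e5 : (b * (n * dl R) / 8) ^ 2 = 1 / (8 * R ^ 2) * (n * dl R) / 64 := by
      rw [← e4]; ring
    have e6 : 1 / (1536 * R ^ 2) * P ≤ 1 / (1536 * R ^ 2) * (3 * (n * dl R)) :=
      mul_le_mul_of_nonneg_left k2 (by positivity)
    have e7 : 1 / (1536 * R ^ 2) * (3 * (n * dl R)) = 1 / (8 * R ^ 2) * (n * dl R) / 64 := by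
      field_simp
      ring
    linarith
  have hup : ENNReal.ofReal (C / n) * relFisher (fR R 1) ≤ ENNReal.ofReal (|C| / n * (2 / R ^ 2)) := by
    rw [ENNReal.ofReal_mul (by positivity)]
    refine mul_le_mul' (ENNReal.ofReal_le_ofReal ?_) hJ1
    exact div_le_div_of_nonneg_right (le_abs_self C) hn0.le
  refine hup.trans_lt (lt_of_lt_of_le ?_ ((ENNReal.ofReal_le_ofReal hlow).trans hge))
  rw [ENNReal.ofReal_lt_ofReal_iff (by positivity)]
  rw [div_mul_div_comm, div_lt_div_iff₀ (by positivity) (by positivity)]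
  have : 0 < R ^ 2 := by positivity
  nlinarith

theorem finD (h_sum : St_sum) (h_mom : St_mom) (h_tail : St_tail) (h_Dle : St_Dle)
    (h_Dge : St_Dge) (C : ℝ) : ∃ (μ : Measure ℝ) (n : ℕ), IsProbabilityMeasure μ ∧
      Integrable (fun x => x ^ 4) μ ∧ ∫ x, x ∂μ = 0 ∧ ∫ x, x ^ 2 ∂μ = 1 ∧ ∫ x, x ^ 4 ∂μ ≤ 10 ∧
      1 ≤ n ∧ relEnt (sumLaw μ 1) ≠ ⊤ ∧
      ENNReal.ofReal (C / n) * relEnt (sumLaw μ 1) < relEnt (sumLaw μ n) := by
  set n : ℕ := ⌈4000 * (|C| + 1)⌉₊ with hnd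
  have hn4 : 4000 * (|C| + 1) ≤ n := Nat.le_ceil _
  have hC0 := abs_nonneg C
  have hn0 : (0 : ℝ) < n := by linarith
  have hn : 1 ≤ n := by exact_mod_cast hn0
  obtain ⟨R, h1, h2, h3, h4, h5⟩ := exists_R n hn
  obtain ⟨m1, m2, m3', m4, m5⟩ := h_mom R h1
  obtain ⟨k1, k2, k3⟩ := key h_tail n R hn h1 h2 h4
  have hQ := (h_tail R n h1 hn h2).2.2.2
  have hD1 := D_one h_sum h_Dle R h1
  have hR0 : 0 < R := by linarith
  refine ⟨muR R, n, m1, m2, m3', m4, m5, hn, ne_top_of_le_ne_top ENNReal.ofReal_ne_top hD1, ?_⟩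
  have hd : 0 < n * dl R := by unfold dl; positivity
  set b := R / (2 * Real.sqrt n) with hb
  have hsum : sumLaw (muR R) n = mixM (pw (p3 R) n) (mw (Pool.Agent.Q42.EC.m3 R) n) (vr R) :=
    h_sum (p3 R) (Pool.Agent.Q42.EC.m3 R) (vr R) (p3_nonneg R h1) (p3_sum R) n hn
  have hprob : IsProbabilityMeasure (sumLaw (muR R) n) := by
    unfold sumLaw
    exact Measure.isProbabilityMeasure_map (by fun_prop)
  have hge := h_Dge (sumLaw (muR R) n) (gaussianReal 0 1) (Set.Ioi b) measurableSet_Ioi (b ^ 2 / 4)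
  rw [← hsum] at k1 k2
  set P := (sumLaw (muR R) n).real (Set.Ioi b) with hP
  have hlow : 1 / (256 * R ^ 2) ≤ b ^ 2 / 4 * P
      - (Real.exp (b ^ 2 / 4) - 1) * (gaussianReal 0 1).real (Set.Ioi b) := by
    have e1 : b ^ 2 / 4 * (n * dl R / 4) ≤ b ^ 2 / 4 * P := mul_le_mul_of_nonneg_left k1 (by positivity)
    have e4 := bsq n hn R h1
    have e2 : (Real.exp (b ^ 2 / 4) - 1) * (gaussianReal 0 1).real (Set.Ioi b)
        ≤ Real.exp (b ^ 2 / 4) * Real.exp (-(b ^ 2 / 2)) := by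
      have hq0 : 0 ≤ (gaussianReal 0 1).real (Set.Ioi b) := measureReal_nonneg
      have : Real.exp (b ^ 2 / 4) * (gaussianReal 0 1).real (Set.Ioi b)
          ≤ Real.exp (b ^ 2 / 4) * Real.exp (-(b ^ 2 / 2)) :=
        mul_le_mul_of_nonneg_left hQ (Real.exp_pos _).le
      linarith
    have e3 : Real.exp (b ^ 2 / 4) * Real.exp (-(b ^ 2 / 2)) = Real.exp (-(b ^ 2 / 4)) := by
      rw [← Real.exp_add]; congr 1; ring
    have e5 : b ^ 2 / 4 * (n * dl R / 4) = 1 / (128 * R ^ 2) := by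
      have : b ^ 2 / 4 * (n * dl R / 4) = (b ^ 2 * (n * dl R)) / 16 := by ring
      rw [this, e4]
      field_simp
      norm_num
    have e6 : 1 / (128 * R ^ 2) = 1 / (256 * R ^ 2) + 1 / (256 * R ^ 2) := by
      field_simp; norm_num
    linarith
  have hup : ENNReal.ofReal (C / n) * relEnt (sumLaw (muR R) 1)
      ≤ ENNReal.ofReal (|C| / n * (1 / R ^ 2)) := by
    rw [ENNReal.ofReal_mul (by positivity)]
    refine mul_le_mul' (ENNReal.ofReal_le_ofReal ?_) hD1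
    exact div_le_div_of_nonneg_right (le_abs_self C) hn0.le
  refine hup.trans_lt (lt_of_lt_of_le ?_ ((ENNReal.ofReal_le_ofReal hlow).trans hge))
  rw [ENNReal.ofReal_lt_ofReal_iff (by positivity)]
  rw [div_mul_div_comm, div_lt_div_iff₀ (by positivity) (by positivity)]
  have : 0 < R ^ 2 := by positivity
  nlinarith

end Pool.Agent.Q42.EC
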