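import Mathlib
import Pool.Agent.Q42.EC.Stm

set_option autoImplicit false
set_option linter.unusedVariables false

open MeasureTheory ProbabilityTheory InformationTheory
open scoped ENNReal NNReal

namespace Pool.Agent.Q42.EC

theorem isFinite_mixM {I : Type} [Fintype I] (p m : I → ℝ) (v : ℝ≥0) :
    IsFiniteMeasure (mixM p m v) := by
  constructor
  unfold mixM
  rw [Measure.coe_finsetSum, Finset.sum_apply]
  apply ENNReal.sum_lt_top.2
  intro i _
  rw [Measure.smul_apply, smul_eq_mul]
  exact ENNReal.mul_lt_top ENNReal.ofReal_lt_top (measure_lt_top _ _)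

theorem charFun_mixM {I : Type} [Fintype I] (p m : I → ℝ) (v : ℝ≥0) (hp : ∀ i, 0 ≤ p i) (t : ℝ) :
    charFun (mixM p m v) t
      = ∑ i, (p i : ℂ) * Complex.exp (t * m i * Complex.I - v * t ^ 2 / 2) := by
  rw [charFun_apply_real]
  unfold mixM
  have hint : ∀ (i : I), Integrable (fun x : ℝ => Complex.exp (t * x * Complex.I))
      (ENNReal.ofReal (p i) • gaussianReal (m i) v) := by
    intro i
    apply Integrable.smul_measure _ ENNReal.ofReal_ne_top
    refine Integrable.of_bound (C := 1) (by fun_prop) (Filter.Eventually.of_forall fun x => ?_)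
    have : (t : ℂ) * x * Complex.I = ((t * x : ℝ) : ℂ) * Complex.I := by push_cast; ring
    rw [this, Complex.norm_exp_ofReal_mul_I]
  rw [integral_finsetSum_measure (fun i _ => hint i)]
  refine Finset.sum_congr rfl fun i _ => ?_
  rw [integral_smul_measure, ENNReal.toReal_ofReal (hp i), ← charFun_apply_real,
    charFun_gaussianReal]
  simp only [Complex.real_smul]

theorem sum : St_sum := by
  intro I _ _ p m v hp hp1 n hn
  have := isFinite_mixM p m v
  have := isFinite_mixM (pw p n) (mw m n) v
  have : IsFiniteMeasure (sumLaw (mixM p m v) n) := by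
    unfold sumLaw; infer_instance
  apply Measure.ext_of_charFun
  funext t
  have hn0 : (0 : ℝ) < Real.sqrt n := Real.sqrt_pos.2 (by exact_mod_cast hn)
  have hpw : ∀ w : Fin n → I, 0 ≤ pw p n w := fun w => Finset.prod_nonneg fun i _ => hp _
  rw [charFun_mixM _ _ _ hpw]
  rw [charFun_apply_real]
  unfold sumLaw
  rw [integral_map (by fun_prop) (by fun_prop)]
  have h1 : ∀ x : Fin n → ℝ, Complex.exp (t * ((∑ i, x i) / Real.sqrt n : ℝ) * Complex.I)
      = ∏ i, Complex.exp ((t / Real.sqrt n : ℝ) * (x i) * Complex.I) := by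
    intro x
    rw [← Complex.exp_sum]
    congr 1
    push_cast
    rw [← Finset.sum_mul, ← Finset.mul_sum]
    ring
  simp_rw [h1]
  have h2 := integral_fintype_prod_eq_prod (𝕜 := ℂ) (ι := Fin n) (E := fun _ => ℝ)
    (μ := fun _ => mixM p m v)
    (f := fun _ (x : ℝ) => Complex.exp ((t / Real.sqrt n : ℝ) * x * Complex.I))
  rw [h2]
  simp_rw [← charFun_apply_real]
  rw [charFun_mixM p m v hp]
  rw [Finset.prod_univ_sum]
  rw [Fintype.piFinset_univ]
  refine Finset.sum_congr rfl fun w _ => ?_
  rw [Finset.prod_mul_distrib]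
  congr 1
  · unfold pw; push_cast; rfl
  · rw [← Complex.exp_sum]
    congr 1
    unfold mw
    rw [Finset.sum_sub_distrib]
    simp only [Finset.sum_const, Finset.card_univ, Fintype.card_fin, nsmul_eq_mul]
    have hs : ((Real.sqrt n : ℝ) : ℂ) ^ 2 = n := by
      rw [← Complex.ofReal_pow, Real.sq_sqrt (by positivity)]; simp
    have hs0 : ((Real.sqrt n : ℝ) : ℂ) ≠ 0 := by exact_mod_cast hn0.ne'
    push_cast
    rw [← Finset.sum_mul, ← Finset.mul_sum]
    congr 1
    · field_simp
    · have : (n : ℂ) * (v * (t / (Real.sqrt n : ℝ)) ^ 2 / 2)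
          = (n : ℂ) * (v * t ^ 2 / 2) / ((Real.sqrt n : ℝ) : ℂ) ^ 2 := by
        field_simp
      rw [this, hs]
      have hnc : (n : ℂ) ≠ 0 := by
        exact_mod_cast (by omega : n ≠ 0)
      field_simp

end Pool.Agent.Q42.EC
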