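import Mathlib
import Pool.Agent.Q42.EC.Stm

set_option autoImplicit false
set_option linter.unusedVariables false

open MeasureTheory ProbabilityTheory InformationTheory
open scoped ENNReal NNReal

namespace Pool.Agent.Q42.EC

theorem real_mixM {I : Type} [Fintype I] (p m : I → ℝ) (v : ℝ≥0) (hp : ∀ i, 0 ≤ p i)
    (A : Set ℝ) :
    (mixM p m v).real A = ∑ i, p i * (gaussianReal (m i) v).real A := by
  unfold mixM Measure.real
  rw [Measure.coe_finsetSum, Finset.sum_apply, ENNReal.toReal_sum]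
  · refine Finset.sum_congr rfl fun i _ => ?_
    rw [Measure.smul_apply, smul_eq_mul, ENNReal.toReal_mul, ENNReal.toReal_ofReal (hp i)]
  · intro i _
    rw [Measure.smul_apply, smul_eq_mul]
    exact (ENNReal.mul_lt_top ENNReal.ofReal_lt_top (measure_lt_top _ _)).ne

theorem gauss_tail (v : ℝ≥0) (hv1 : (v : ℝ) ≤ 1) (b : ℝ) (hb : 0 ≤ b) :
    (gaussianReal 0 v).real (Set.Ioi b) ≤ Real.exp (-(b ^ 2 / 2)) := by
  have h1 := measure_ge_le_exp_mul_mgf (μ := gaussianReal 0 v) (X := id) b hb
    (integrable_exp_mul_gaussianReal b)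
  rw [mgf_id_gaussianReal] at h1
  simp only [id] at h1
  have h2 : (gaussianReal 0 v).real (Set.Ioi b) ≤ (gaussianReal 0 v).real {ω | b ≤ ω} :=
    measureReal_mono (fun x (hx : b < x) => hx.le)
  refine h2.trans (h1.trans ?_)
  rw [← Real.exp_add]
  apply Real.exp_le_exp.2
  nlinarith [sq_nonneg b]

theorem gauss_half (m : ℝ) (v : ℝ≥0) (hv : v ≠ 0) (b : ℝ) (hb : b ≤ m) :
    1 / 2 ≤ (gaussianReal m v).real (Set.Ioi b) := by
  have h1 : (gaussianReal m v).real (Set.Ioi m) ≤ (gaussianReal m v).real (Set.Ioi b) :=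
    measureReal_mono (fun x (hx : m < x) => lt_of_le_of_lt hb hx)
  refine le_trans ?_ h1
  have h2 : (gaussianReal m v).real (Set.Iio m) = (gaussianReal m v).real (Set.Ioi m) := by
    have h3 := gaussianReal_map_const_sub (μ := m) (v := v) (2 * m)
    have h4 : 2 * m - m = m := by ring
    rw [h4] at h3
    conv_lhs => rw [← h3]
    unfold Measure.real
    rw [Measure.map_apply (by fun_prop) measurableSet_Iio]
    congr 2
    ext x
    simp only [Set.mem_preimage, Set.mem_Iio, Set.mem_Ioi]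
    constructor <;> intro h <;> linarith
  have hna : (gaussianReal m v).real {m} = 0 := by
    have := nullSingletonClass_gaussianReal (μ := m) hv
    unfold Measure.real
    rw [measure_singleton]; rfl
  have h5 : (gaussianReal m v).real Set.univ = 1 := by simp
  have h6 : (Set.univ : Set ℝ) ⊆ (Set.Iio m ∪ Set.Ioi m) ∪ {m} := by
    intro x _
    rcases lt_trichotomy x m with h | h | h
    · exact Or.inl (Or.inl h)
    · exact Or.inr h
    · exact Or.inl (Or.inr h)
  have h7 : (gaussianReal m v).real Set.univ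
      ≤ (gaussianReal m v).real (Set.Iio m) + (gaussianReal m v).real (Set.Ioi m)
        + (gaussianReal m v).real {m} :=
    (measureReal_mono h6).trans ((measureReal_union_le _ _).trans
      (by gcongr; exact measureReal_union_le _ _))
  rw [h5, hna, h2] at h7
  linarith

theorem pdf_le_one (m : ℝ) (v : ℝ≥0) (hv : (3 : ℝ) / 4 ≤ v) (x : ℝ) :
    gaussianPDFReal m v x ≤ Real.exp (-(x - m) ^ 2 / (2 * v)) := by
  rw [gaussianPDFReal]
  have h1 : (Real.sqrt (2 * Real.pi * v))⁻¹ ≤ 1 := by
    apply inv_le_one_of_one_le₀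
    rw [Real.one_le_sqrt]
    nlinarith [Real.pi_gt_three]
  calc (Real.sqrt (2 * Real.pi * v))⁻¹ * Real.exp (-(x - m) ^ 2 / (2 * v))
      ≤ 1 * Real.exp (-(x - m) ^ 2 / (2 * v)) := by gcongr
    _ = _ := one_mul _

theorem p3_nonneg (R : ℝ) (hR : 2 ≤ R) : ∀ i, 0 ≤ p3 R i := by
  have h16 : (16 : ℝ) ≤ R ^ 4 := by
    have : (2 : ℝ) ^ 4 ≤ R ^ 4 := pow_le_pow_left₀ (by norm_num) hR 4
    linarith
  have hd0 : 0 ≤ dl R := by unfold dl; positivity
  have hd1 : dl R ≤ 1 / 32 := by
    unfold dl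
    apply one_div_le_one_div_of_le (by norm_num)
    linarith
  intro i
  fin_cases i
  · exact hd0
  · change 0 ≤ 1 - 2 * dl R
    linarith
  · exact hd0

theorem p3_sum (R : ℝ) : ∑ i, p3 R i = 1 := by
  rw [Fin.sum_univ_three]
  simp [p3]
  ring

theorem pw_nonneg' (R : ℝ) (hR : 2 ≤ R) (n : ℕ) (w : Fin n → Fin 3) : 0 ≤ pw (p3 R) n w :=
  Finset.prod_nonneg fun i _ => p3_nonneg R hR _

theorem pw_sum (R : ℝ) (n : ℕ) : ∑ w, pw (p3 R) n w = 1 := by
  unfold pw
  have h := Finset.prod_univ_sum (fun _ : Fin n => (Finset.univ : Finset (Fin 3)))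
    (fun _ j => p3 R j)
  rw [Fintype.piFinset_univ] at h
  rw [← h, p3_sum]
  simp

theorem pw_w0 (R : ℝ) (n : ℕ) : pw (p3 R) n (fun _ => 1) = (1 - 2 * dl R) ^ n := by
  unfold pw
  simp [p3]

theorem bern (d : ℝ) (n : ℕ) (h0 : 0 ≤ d) (h1 : d ≤ 1 / 32) :
    1 - 2 * n * d ≤ (1 - 2 * d) ^ n := by
  have := one_add_mul_le_pow (a := -(2 * d)) (by linarith) n
  have h2 : (1 : ℝ) + -(2 * d) = 1 - 2 * d := by ring
  rw [h2] at this
  linarith

theorem gen_upper (R : ℝ) (hR : 2 ≤ R) (n : ℕ) (c : (Fin n → Fin 3) → ℝ) (E : ℝ)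
    (hd0 : 0 ≤ dl R) (hd1 : dl R ≤ 1 / 32)
    (hc0 : ∀ w, 0 ≤ c w) (hc1 : ∀ w, c w ≤ 1) (hE : c (fun _ => 1) ≤ E) (hE0 : 0 ≤ E) :
    ∑ w, pw (p3 R) n w * c w ≤ 2 * n * dl R + E := by
  classical
  set w0 : Fin n → Fin 3 := fun _ => 1 with hw0
  have hb := bern (dl R) n hd0 hd1
  have hs := pw_sum R n
  rw [← Finset.add_sum_erase _ _ (Finset.mem_univ w0)] at hs ⊢
  have h1 : ∑ w ∈ Finset.univ.erase w0, pw (p3 R) n w * c w
      ≤ ∑ w ∈ Finset.univ.erase w0, pw (p3 R) n w := by
    refine Finset.sum_le_sum fun w _ => ?_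
    exact mul_le_of_le_one_right (pw_nonneg' R hR n w) (hc1 w)
  have h2 : pw (p3 R) n w0 = (1 - 2 * dl R) ^ n := pw_w0 R n
  have h3 : pw (p3 R) n w0 ≤ 1 := by
    rw [h2]
    exact pow_le_one₀ (by linarith) (by linarith)
  have h4 : pw (p3 R) n w0 * c w0 ≤ E := by
    calc pw (p3 R) n w0 * c w0 ≤ 1 * c w0 := mul_le_mul_of_nonneg_right h3 (hc0 _)
      _ ≤ E := by rw [one_mul]; exact hE
  linarith

theorem tail : St_tail := by
  intro R n hR hn hnR
  have hn0 : (0 : ℝ) < n := by exact_mod_cast hn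
  have hs0 : 0 < Real.sqrt n := Real.sqrt_pos.2 hn0
  have h16 : (16 : ℝ) ≤ R ^ 4 := by
    have : (2 : ℝ) ^ 4 ≤ R ^ 4 := pow_le_pow_left₀ (by norm_num) hR 4
    linarith
  have hd0 : 0 < dl R := by unfold dl; positivity
  have hd1 : dl R ≤ 1 / 32 := by
    unfold dl
    apply one_div_le_one_div_of_le (by norm_num)
    linarith
  have hnd : n * dl R ≤ 1 / 4 := by
    unfold dl
    rw [mul_one_div, div_le_iff₀ (by positivity)]
    linarith
  have hR2 : (4 : ℝ) ≤ R ^ 2 := by nlinarith
  have hv' : (vr R : ℝ) = 1 - 1 / R ^ 2 := by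
    unfold vr
    apply Real.coe_toNNReal
    have : 1 / R ^ 2 ≤ 1 := by
      rw [div_le_one (by positivity)]; linarith
    linarith
  have hv34 : (3 : ℝ) / 4 ≤ vr R := by
    rw [hv']
    have : 1 / R ^ 2 ≤ 1 / 4 := one_div_le_one_div_of_le (by norm_num) hR2
    linarith
  have hv1 : (vr R : ℝ) ≤ 1 := by
    rw [hv']
    have : 0 ≤ 1 / R ^ 2 := by positivity
    linarith
  have hvne : vr R ≠ 0 := by
    intro h
    rw [h] at hv34
    norm_num at hv34
  set b : ℝ := R / (2 * Real.sqrt n) with hb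
  have hb0 : 0 ≤ b := by positivity
  have hmw0 : mw (m3 R) n (fun _ => 1) = 0 := by
    unfold mw; simp [m3]
  have hE0 : 0 ≤ Real.exp (-(b ^ 2 / 2)) := (Real.exp_pos _).le
  refine ⟨?_, ?_, ?_, gauss_tail 1 (by norm_num) b hb0⟩
  · rw [real_mixM _ _ _ (pw_nonneg' R hR n)]
    classical
    let wj : Fin n → (Fin n → Fin 3) := fun j => Function.update (fun _ => 1) j 2
    have hinj : Function.Injective wj := by
      intro j k hjk
      by_contra hne
      have := congrFun hjk j
      simp only [wj, Function.update_self] at this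
      rw [Function.update_of_ne hne] at this
      exact absurd this (by decide)
    have h1 : ∑ j, pw (p3 R) n (wj j)
          * (gaussianReal (mw (m3 R) n (wj j)) (vr R)).real (Set.Ioi b)
        ≤ ∑ w, pw (p3 R) n w * (gaussianReal (mw (m3 R) n w) (vr R)).real (Set.Ioi b) := by
      rw [← Finset.sum_image (f := fun w => pw (p3 R) n w
        * (gaussianReal (mw (m3 R) n w) (vr R)).real (Set.Ioi b)) (g := wj)
        (fun x _ y _ h => hinj h)]
      apply Finset.sum_le_sum_of_subset_of_nonneg (Finset.subset_univ _)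
      intro w _ _
      exact mul_nonneg (pw_nonneg' R hR n w) measureReal_nonneg
    refine le_trans ?_ h1
    have h2 : ∀ j, dl R / 4 ≤ pw (p3 R) n (wj j)
          * (gaussianReal (mw (m3 R) n (wj j)) (vr R)).real (Set.Ioi b) := by
      intro j
      have hpw : pw (p3 R) n (wj j) = dl R * (1 - 2 * dl R) ^ (n - 1) := by
        unfold pw
        rw [← Finset.mul_prod_erase _ _ (Finset.mem_univ j)]
        congr 1
        · simp [wj, p3]
        · have : ∀ i ∈ Finset.univ.erase j, p3 R (wj j i) = 1 - 2 * dl R := by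
            intro i hi
            have hij : i ≠ j := Finset.ne_of_mem_erase hi
            simp only [wj]
            rw [Function.update_of_ne hij]
            rfl
          rw [Finset.prod_congr rfl this, Finset.prod_const, Finset.card_erase_of_mem
            (Finset.mem_univ j), Finset.card_univ, Fintype.card_fin]
      have hmw : mw (m3 R) n (wj j) = R / Real.sqrt n := by
        unfold mw
        congr 1
        rw [← Finset.add_sum_erase _ _ (Finset.mem_univ j)]
        have : ∀ i ∈ Finset.univ.erase j, m3 R (wj j i) = 0 := by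
          intro i hi
          have hij : i ≠ j := Finset.ne_of_mem_erase hi
          simp only [wj]
          rw [Function.update_of_ne hij]
          rfl
        rw [Finset.sum_eq_zero this]
        simp [wj, m3]
      have hbm : b ≤ mw (m3 R) n (wj j) := by
        rw [hmw, hb]
        apply div_le_div_of_nonneg_left (by linarith) hs0
        linarith
      have h3 := gauss_half (mw (m3 R) n (wj j)) (vr R) hvne b hbm
      have h4 : 1 / 2 ≤ (1 - 2 * dl R) ^ (n - 1) := by
        have h5 := bern (dl R) (n - 1) hd0.le hd1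
        have h6 : ((n - 1 : ℕ) : ℝ) ≤ n := by exact_mod_cast Nat.sub_le n 1
        nlinarith
      rw [hpw]
      have h7 : dl R * (1 / 2) ≤ dl R * (1 - 2 * dl R) ^ (n - 1) :=
        mul_le_mul_of_nonneg_left h4 hd0.le
      calc dl R / 4 = dl R * (1 / 2) * (1 / 2) := by ring
        _ ≤ dl R * (1 - 2 * dl R) ^ (n - 1)
            * (gaussianReal (mw (m3 R) n (wj j)) (vr R)).real (Set.Ioi b) := by
          apply mul_le_mul h7 h3 (by norm_num)
          exact le_trans (by positivity) h7
    calc n * dl R / 4 = ∑ j : Fin n, dl R / 4 := by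
          rw [Finset.sum_const, Finset.card_univ, Fintype.card_fin, nsmul_eq_mul]; ring
      _ ≤ _ := Finset.sum_le_sum fun j _ => h2 j
  · rw [real_mixM _ _ _ (pw_nonneg' R hR n)]
    refine gen_upper R hR n _ _ hd0.le hd1 (fun w => measureReal_nonneg)
      (fun w => measureReal_le_one) ?_ hE0
    rw [hmw0]
    exact gauss_tail (vr R) hv1 b hb0
  · unfold mixPDF
    refine gen_upper R hR n _ _ hd0.le hd1 (fun w => gaussianPDFReal_nonneg _ _ _) ?_ ?_ hE0
    · intro w
      refine (pdf_le_one _ _ hv34 _).trans ?_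
      rw [Real.exp_le_one_iff]
      apply div_nonpos_of_nonpos_of_nonneg
      · have := sq_nonneg (b - mw (m3 R) n w); linarith
      · positivity
    · rw [hmw0]
      refine (pdf_le_one _ _ hv34 _).trans ?_
      apply Real.exp_le_exp.2
      rw [sub_zero, neg_div]
      apply neg_le_neg
      apply div_le_div_of_nonneg_left (sq_nonneg b) (by positivity)
      linarith

end Pool.Agent.Q42.EC
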